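import Mathlib

/-!
Straight-line programs with few non-monotone instructions (MP_0f1f76_lc): definitions and the reduction to one
copy.
-/

set_option autoImplicit false

namespace Pool.Agent.Helper54K9.GX

open Finset

/-- Operands: the constants, the input bits (named by `ι`), the registers. -/
abbrev Ref (ι : Type) (R : ℕ) := Bool ⊕ ι ⊕ Fin R

/-- An instruction with target register `dst` and operands `src`.  If `fn = none`, it is a threshold
instruction: `dst` becomes 1 if at least `thr` of the operands are 1, and 0 otherwise (`thr = 1`: OR;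
`thr` = number of operands: AND).  If `fn = some g`, it is special: `dst` becomes the value of the
arbitrary function `g` of the list of the values of the operands (NOT, XOR, ...). -/
structure Instr (ι : Type) (R : ℕ) where
  dst : Fin R
  fn : Option (List Bool → Bool)
  thr : ℕ
  src : List (Ref ι R)

/-- The value of an operand for the input `x` and the contents `ρ` of the registers. -/
def val {ι : Type} {R : ℕ} (x : ι → Bool) (ρ : Fin R → Bool) : Ref ι R → Bool
  | .inl b => b
  | .inr (.inl a) => x a
  | .inr (.inr r) => ρ r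

/-- The threshold of an instruction is reached. -/
def th {ι : Type} {R : ℕ} (x : ι → Bool) (ρ : Fin R → Bool) (I : Instr ι R) : Bool :=
  decide (I.thr ≤ I.src.countP (val x ρ))

/-- The new value of the target register. -/
def ev {ι : Type} {R : ℕ} (x : ι → Bool) (ρ : Fin R → Bool) (I : Instr ι R) : Bool :=
  match I.fn with
  | none => th x ρ I
  | some g => g (I.src.map (val x ρ))

/-- One instruction. -/
def step {ι : Type} {R : ℕ} (x : ι → Bool) (ρ : Fin R → Bool) (I : Instr ι R) : Fin R → Bool :=
  Function.update ρ I.dst (ev x ρ I)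

/-- A sequence of instructions. -/
def run {ι : Type} {R : ℕ} (x : ι → Bool) (ρ : Fin R → Bool) (P : List (Instr ι R)) :
    Fin R → Bool := P.foldl (step x) ρ

/-- The cost: number of instructions plus number of operands. -/
def cost {ι : Type} {R : ℕ} (P : List (Instr ι R)) : ℕ := (P.map (fun I => I.src.length + 1)).sum

/-- The number of special instructions. -/
def spec {ι : Type} {R : ℕ} (P : List (Instr ι R)) : ℕ := P.countP (fun I => I.fn.isSome)

/-- Special instructions have at most `F` operands. -/
def Narrow {ι : Type} {R : ℕ} (F : ℕ) (P : List (Instr ι R)) : Prop :=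
  ∀ I ∈ P, I.fn.isSome = true → I.src.length ≤ F

theorem cost_cons {ι : Type} {R : ℕ} (I : Instr ι R) (P : List (Instr ι R)) :
    cost (I :: P) = (I.src.length + 1) + cost P := by
  unfold cost
  simp

theorem ev_thr {ι : Type} {R : ℕ} (x : ι → Bool) (ρ : Fin R → Bool) (I : Instr ι R)
    (h : I.fn.isSome = false) : ev x ρ I = th x ρ I := by
  unfold ev
  cases hf : I.fn with
  | none => rfl
  | some g => rw [hf] at h; exact absurd h (by simp)

theorem ev_map {ι : Type} {R : ℕ} (x x' : ι → Bool) (ρ ρ' : Fin R → Bool) (I : Instr ι R)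
    (hs : I.fn.isSome = true) (h : I.src.map (val x ρ) = I.src.map (val x' ρ')) :
    ev x ρ I = ev x' ρ' I := by
  unfold ev
  cases hf : I.fn with
  | none => rw [hf] at hs; exact absurd hs (by simp)
  | some g => simp only; rw [h]

section mono

variable {ι : Type} {R : ℕ}

theorem val_mono {x x' : ι → Bool} {ρ ρ' : Fin R → Bool} (hx : ∀ a, x a = true → x' a = true)
    (hρ : ∀ r, ρ r = true → ρ' r = true) (q : Ref ι R) (h : val x ρ q = true) :
    val x' ρ' q = true := by
  rcases q with b | a | r
  · exact h
  · exact hx a h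
  · exact hρ r h

theorem th_mono {x x' : ι → Bool} {ρ ρ' : Fin R → Bool} (hx : ∀ a, x a = true → x' a = true)
    (hρ : ∀ r, ρ r = true → ρ' r = true) (I : Instr ι R) (h : th x ρ I = true) :
    th x' ρ' I = true := by
  unfold th at h ⊢
  rw [decide_eq_true_eq] at h ⊢
  exact h.trans (List.countP_mono_left (fun q _ hq => val_mono hx hρ q hq))

theorem step_dst (x : ι → Bool) (ρ : Fin R → Bool) (I : Instr ι R) :
    step x ρ I I.dst = ev x ρ I := by
  unfold step
  rw [Function.update_self]

theorem step_ne (x : ι → Bool) (ρ : Fin R → Bool) (I : Instr ι R) {r : Fin R} (hr : r ≠ I.dst) :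
    step x ρ I r = ρ r := by
  unfold step
  rw [Function.update_of_ne hr]

theorem step_mono {x x' : ι → Bool} {ρ ρ' : Fin R → Bool} (hx : ∀ a, x a = true → x' a = true)
    (hρ : ∀ r, ρ r = true → ρ' r = true) (I : Instr ι R)
    (hn : I.fn.isSome = true → ev x ρ I = ev x' ρ' I) (r : Fin R)
    (h : step x ρ I r = true) : step x' ρ' I r = true := by
  by_cases hr : r = I.dst
  · subst hr
    cases hneg : I.fn.isSome
    · rw [step_dst, ev_thr _ _ _ hneg] at h ⊢
      exact th_mono hx hρ I h
    · rw [step_dst] at h ⊢
      rw [← hn hneg]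
      exact h
  · rw [step_ne _ _ _ hr] at h ⊢
    exact hρ r h

end mono

variable {n R : ℕ}

/-- The input with ones in the copies below `m`, zeros in the others. -/
def ZZ (m : ℕ) : Fin n × Fin n → Bool := fun p => decide (p.1.1 < m)

/-- The input with the vector `v` in copy `i`, ones in the copies before, zeros in the copies
after `i`. -/
def XV (i : Fin n) (v : Fin n → Bool) : Fin n × Fin n → Bool :=
  fun p => if p.1 = i then v p.2 else decide (p.1 < i)

theorem ZZ_mono {m m' : ℕ} (h : m ≤ m') (p : Fin n × Fin n) (hp : ZZ m p = true) :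
    ZZ m' p = true := by
  unfold ZZ at hp ⊢
  rw [decide_eq_true_eq] at hp ⊢
  omega

theorem ZZ_le_XV (i : Fin n) (v : Fin n → Bool) (p : Fin n × Fin n) (h : ZZ i.1 p = true) :
    XV i v p = true := by
  unfold ZZ at h
  unfold XV
  rw [decide_eq_true_eq] at h
  rw [if_neg (by intro hp; rw [hp] at h; omega), decide_eq_true_eq]
  exact h

theorem XV_le_ZZ (i : Fin n) (v : Fin n → Bool) (p : Fin n × Fin n) (h : XV i v p = true) :
    ZZ (i.1 + 1) p = true := by
  unfold ZZ
  unfold XV at h
  rw [decide_eq_true_eq]
  by_cases hp : p.1 = i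
  · rw [hp]; omega
  · rw [if_neg hp, decide_eq_true_eq] at h
    have : p.1.1 < i.1 := h
    omega

/-- The reduced operand. -/
def redRef (i : Fin n) (lo hi : Fin R → Bool) : Ref (Fin n × Fin n) R → Ref (Fin n) R
  | .inl b => .inl b
  | .inr (.inl p) => if p.1 = i then .inr (.inl p.2) else .inl (decide (p.1 < i))
  | .inr (.inr r) => if lo r = hi r then .inl (lo r) else .inr (.inr r)

/-- The reduced instruction. -/
def redI (i : Fin n) (lo hi : Fin R → Bool) (I : Instr (Fin n × Fin n) R) : Instr (Fin n) R :=
  ⟨I.dst, none, min I.thr (I.src.length + 1), I.src.map (redRef i lo hi)⟩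

/-- The reduced program: the live instructions. -/
def redu (i : Fin n) : (lo hi : Fin R → Bool) → List (Instr (Fin n × Fin n) R) →
    List (Instr (Fin n) R)
  | _, _, [] => []
  | lo, hi, I :: P =>
    if I.fn.isSome = false ∧ step (ZZ i.1) lo I I.dst ≠ step (ZZ (i.1 + 1)) hi I I.dst then
      redI i lo hi I :: redu i (step (ZZ i.1) lo I) (step (ZZ (i.1 + 1)) hi I) P
    else redu i (step (ZZ i.1) lo I) (step (ZZ (i.1 + 1)) hi I) P

theorem redu_cons (i : Fin n) (lo hi : Fin R → Bool) (I : Instr (Fin n × Fin n) R)
    (P : List (Instr (Fin n × Fin n) R)) : redu i lo hi (I :: P) =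
    if I.fn.isSome = false ∧ step (ZZ i.1) lo I I.dst ≠ step (ZZ (i.1 + 1)) hi I I.dst then
      redI i lo hi I :: redu i (step (ZZ i.1) lo I) (step (ZZ (i.1 + 1)) hi I) P
    else redu i (step (ZZ i.1) lo I) (step (ZZ (i.1 + 1)) hi I) P := by
  conv_lhs => rw [redu]

/-- No operand of a special instruction changes its value between the inputs `ZZ i` and
`ZZ (i + 1)`. -/
def Good (n : ℕ) {R : ℕ} (i : ℕ) : (lo hi : Fin R → Bool) → List (Instr (Fin n × Fin n) R) → Prop
  | _, _, [] => True
  | lo, hi, I :: P => (I.fn.isSome = true →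
      I.src.map (val (ZZ i) lo) = I.src.map (val (ZZ (i + 1)) hi)) ∧
      Good n i (step (ZZ i) lo I) (step (ZZ (i + 1)) hi I) P

theorem good_cons (i : ℕ) (lo hi : Fin R → Bool) (I : Instr (Fin n × Fin n) R)
    (P : List (Instr (Fin n × Fin n) R)) : Good n i lo hi (I :: P) ↔
    (I.fn.isSome = true →
      I.src.map (val (ZZ i) lo) = I.src.map (val (ZZ (i + 1)) hi)) ∧
      Good n i (step (ZZ i) lo I) (step (ZZ (i + 1)) hi I) P := by
  conv_lhs => rw [Good]

/-- The invariant of the reduction. -/
structure Inv (lo hi ρ ρ' : Fin R → Bool) : Prop where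
  lo_le : ∀ r, lo r = true → ρ r = true
  le_hi : ∀ r, ρ r = true → hi r = true
  eq : ∀ r, lo r ≠ hi r → ρ' r = ρ r

theorem Inv.ref {i : Fin n} {v : Fin n → Bool} {lo hi ρ ρ' : Fin R → Bool}
    (h : Inv lo hi ρ ρ') (q : Ref (Fin n × Fin n) R) :
    val v ρ' (redRef i lo hi q) = val (XV i v) ρ q := by
  rcases q with b | p | r
  · rfl
  · show val v ρ' (if p.1 = i then .inr (.inl p.2) else .inl (decide (p.1 < i))) = XV i v p
    unfold XV
    by_cases hp : p.1 = i
    · rw [if_pos hp, if_pos hp]; rfl
    · rw [if_neg hp, if_neg hp]; rfl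
  · show val v ρ' (if lo r = hi r then .inl (lo r) else .inr (.inr r)) = ρ r
    by_cases hr : lo r = hi r
    · rw [if_pos hr]
      show lo r = ρ r
      have h1 := h.lo_le r
      have h2 := h.le_hi r
      cases hl : lo r
      · rw [hl] at hr
        rw [← hr] at h2
        cases hρ : ρ r
        · rfl
        · exact absurd (h2 hρ) (by simp)
      · exact (h1 hl).symm
    · rw [if_neg hr]
      exact h.eq r hr

theorem min_thr (t len c : ℕ) (hc : c ≤ len) : min t (len + 1) ≤ c ↔ t ≤ c := by omega

theorem inv_step {i : Fin n} {v : Fin n → Bool} {lo hi ρ ρ' : Fin R → Bool}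
    (h : Inv lo hi ρ ρ') (I : Instr (Fin n × Fin n) R)
    (hn : I.fn.isSome = true →
      I.src.map (val (ZZ i.1) lo) = I.src.map (val (ZZ (i.1 + 1)) hi)) :
    Inv (step (ZZ i.1) lo I) (step (ZZ (i.1 + 1)) hi I) (step (XV i v) ρ I)
      (if I.fn.isSome = false ∧ step (ZZ i.1) lo I I.dst ≠ step (ZZ (i.1 + 1)) hi I I.dst then
        step v ρ' (redI i lo hi I) else ρ') := by
  -- a special instruction is constant
  have hconst : I.fn.isSome = true → ev (ZZ i.1) lo I = ev (XV i v) ρ I ∧
      ev (XV i v) ρ I = ev (ZZ (i.1 + 1)) hi I := by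
    intro hs
    have h1 := hn hs
    have h2 : ∀ q ∈ I.src, val (ZZ i.1) lo q = val (ZZ (i.1 + 1)) hi q :=
      List.map_inj_left.mp h1
    have h3 : ∀ q ∈ I.src, val (ZZ i.1) lo q = val (XV i v) ρ q := by
      intro q hq
      have a1 := val_mono (ZZ_le_XV i v) h.lo_le q
      have a2 := val_mono (XV_le_ZZ i v) h.le_hi q
      rw [← h2 q hq] at a2
      cases ha : val (ZZ i.1) lo q
      · cases hb : val (XV i v) ρ q
        · rfl
        · have := a2 hb
          rw [ha] at this
          exact absurd this (by simp)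
      · exact (a1 ha).symm
    have h4 : I.src.map (val (ZZ i.1) lo) = I.src.map (val (XV i v) ρ) := List.map_inj_left.mpr h3
    exact ⟨ev_map _ _ _ _ I hs h4, ev_map _ _ _ _ I hs (h4.symm.trans h1)⟩
  refine ⟨?_, ?_, ?_⟩
  · exact fun r hr => step_mono (ZZ_le_XV i v) h.lo_le I (fun hs => (hconst hs).1) r hr
  · exact fun r hr => step_mono (XV_le_ZZ i v) h.le_hi I (fun hs => (hconst hs).2) r hr
  · intro r hr
    by_cases hd : r = I.dst
    · subst hd
      have hneg : I.fn.isSome = false := by
        cases hh : I.fn.isSome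
        · rfl
        · rw [step_dst, step_dst] at hr
          exact absurd ((hconst hh).1.trans (hconst hh).2) hr
      rw [if_pos ⟨hneg, hr⟩]
      have e1 : step v ρ' (redI i lo hi I) (redI i lo hi I).dst =
          ev v ρ' (redI i lo hi I) := step_dst _ _ _
      have e2 : step v ρ' (redI i lo hi I) I.dst = th v ρ' (redI i lo hi I) :=
        e1.trans (ev_thr _ _ _ rfl)
      rw [e2, step_dst, ev_thr _ _ _ hneg]
      unfold th redI
      apply decide_eq_decide.mpr
      simp only
      rw [List.countP_map]
      have e3 : (val v ρ' ∘ redRef i lo hi) = val (XV i v) ρ := by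
        funext q
        exact h.ref q
      rw [e3]
      exact min_thr _ _ _ List.countP_le_length
    · rw [step_ne _ _ _ hd] at hr ⊢
      rw [step_ne _ _ _ hd] at hr
      split_ifs
      · rw [step_ne v ρ' (redI i lo hi I) (r := r) hd]
        exact h.eq r hr
      · exact h.eq r hr

theorem exact_run {i : Fin n} {v : Fin n → Bool} (P : List (Instr (Fin n × Fin n) R)) :
    ∀ {lo hi ρ ρ' : Fin R → Bool}, Inv lo hi ρ ρ' → Good n i.1 lo hi P →
      Inv (run (ZZ i.1) lo P) (run (ZZ (i.1 + 1)) hi P) (run (XV i v) ρ P)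
        (run v ρ' (redu i lo hi P)) := by
  induction P with
  | nil => intro lo hi ρ ρ' h _; exact h
  | cons I P ih =>
    intro lo hi ρ ρ' h hg
    rw [good_cons] at hg
    have h1 := ih (inv_step (v := v) h I hg.1) hg.2
    have e : run v ρ' (redu i lo hi (I :: P)) =
        run v (if I.fn.isSome = false ∧ step (ZZ i.1) lo I I.dst ≠ step (ZZ (i.1 + 1)) hi I I.dst then
        step v ρ' (redI i lo hi I) else ρ')
        (redu i (step (ZZ i.1) lo I) (step (ZZ (i.1 + 1)) hi I) P) := by
      rw [redu_cons]
      split_ifs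
      · rfl
      · rfl
    rw [e]
    exact h1

/-- Sets which are separated by a small set are small. -/
theorem sep (J B : Finset ℕ) (h : ∀ i ∈ J, ∀ j ∈ J, i < j → ∃ b ∈ B, i < b ∧ b < j) :
    J.card ≤ B.card + 1 := by
  classical
  rcases J.eq_empty_or_nonempty with hJ | hJ
  · rw [hJ, card_empty]; omega
  set M := J.max' hJ with hM
  have hMJ : M ∈ J := J.max'_mem hJ
  set φ : ℕ → ℕ := fun i => if h : (B.filter (fun b => i < b)).Nonempty then
    (B.filter (fun b => i < b)).min' h else 0 with hφ
  have hne : ∀ i ∈ J.erase M, (B.filter (fun b => i < b)).Nonempty := by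
    intro i hi
    rw [mem_erase] at hi
    have hlt : i < M := lt_of_le_of_ne (J.le_max' i hi.2) hi.1
    obtain ⟨b, hb, h1, _⟩ := h i hi.2 M hMJ hlt
    exact ⟨b, mem_filter.mpr ⟨hb, h1⟩⟩
  have hφe : ∀ i ∈ J.erase M, ∀ h : (B.filter (fun b => i < b)).Nonempty,
      φ i = (B.filter (fun b => i < b)).min' h := by
    intro i _ h
    rw [hφ]
    simp only
    rw [dif_pos h]
  have hlt : ∀ i ∈ J.erase M, ∀ j ∈ J.erase M, i < j → φ i < φ j := by
    intro i hi j hj hij
    obtain ⟨b, hb, h1, h2⟩ := h i (mem_of_mem_erase hi) j (mem_of_mem_erase hj) hij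
    rw [hφe i hi (hne i hi), hφe j hj (hne j hj)]
    have h3 : (B.filter (fun b => i < b)).min' (hne i hi) ≤ b :=
      min'_le _ _ (mem_filter.mpr ⟨hb, h1⟩)
    have h4 := (mem_filter.mp ((B.filter (fun b => j < b)).min'_mem (hne j hj))).2
    omega
  have hc : (J.erase M).card ≤ B.card := by
    apply card_le_card_of_injOn φ
    · intro i hi
      have hi' : i ∈ J.erase M := hi
      rw [hφe i hi' (hne i hi')]
      exact (mem_filter.mp ((B.filter (fun b => i < b)).min'_mem (hne i hi'))).1
    · intro i hi j hj hij
      have hi' : i ∈ J.erase M := hi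
      have hj' : j ∈ J.erase M := hj
      by_contra hne'
      rcases lt_or_gt_of_ne hne' with hlt1 | hlt1
      · exact absurd hij (hlt i hi' j hj' hlt1).ne
      · exact absurd hij (hlt j hj' i hi' hlt1).ne'
  rw [card_erase_of_mem hMJ] at hc
  omega

/-- A function which increases outside of `B` jumps at most `#B + 1` times outside of `B`. -/
theorem jumps (f : ℕ → Bool) (n : ℕ) (B J : Finset ℕ) (hJ : ∀ i ∈ J, i < n ∧ i ∉ B)
    (hf : ∀ i, i < n → i ∉ B → f i = true → f (i + 1) = true)
    (hj : ∀ i ∈ J, f i ≠ f (i + 1)) : J.card ≤ B.card + 1 := by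
  apply sep
  intro i hi j hjJ hij
  by_contra hcon
  push Not at hcon
  have h1 : f i = false ∧ f (i + 1) = true := by
    have a1 := hf i (hJ i hi).1 (hJ i hi).2
    have a2 := hj i hi
    cases hfi : f i
    · refine ⟨rfl, ?_⟩
      rw [hfi] at a2
      cases hfi1 : f (i + 1)
      · exact absurd hfi1.symm a2
      · rfl
    · rw [hfi, a1 hfi] at a2
      exact absurd rfl a2
  have h2 : ∀ m, i + 1 ≤ m → m ≤ j → f m = true := by
    intro m hm
    induction m, hm using Nat.le_induction with
    | base => intro _; exact h1.2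
    | succ m hm ih =>
      intro hmj
      have hmB : m ∉ B := by
        intro hmB
        have := hcon m hmB (by omega)
        omega
      exact hf m (by have := (hJ j hjJ).1; omega) hmB (ih (by omega))
  have h3 := h2 j (by omega) le_rfl
  have h4 := hf j (hJ j hjJ).1 (hJ j hjJ).2 h3
  exact hj j hjJ (by rw [h3, h4])

open Classical in
/-- Few copies are bad. -/
theorem bad_count (F : ℕ) (P : List (Instr (Fin n × Fin n) R)) : Narrow F P →
    ∀ (S : ℕ → Fin R → Bool) (Bd : Finset ℕ),
    (∀ i, i < n → i ∉ Bd → ∀ r, S i r = true → S (i + 1) r = true) →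
    (Bd ∪ (range n).filter (fun i => ¬ Good n i (S i) (S (i + 1)) P)).card + 1 ≤
      (F + 1) ^ spec P * (Bd.card + 1) := by
  induction P with
  | nil =>
    intro _ S Bd _
    have : (range n).filter (fun i => ¬ Good n i (S i) (S (i + 1))
        ([] : List (Instr (Fin n × Fin n) R))) = ∅ := by
      apply filter_eq_empty_iff.mpr
      intro i _
      rw [not_not]
      exact trivial
    rw [this, union_empty]
    simp [spec]
  | cons I P ih =>
    intro hF S Bd hS
    have hF' : Narrow F P := fun J hJ => hF J (List.mem_cons_of_mem _ hJ)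
    set S' : ℕ → Fin R → Bool := fun m => step (ZZ m) (S m) I with hS'
    by_cases hsp : I.fn.isSome = true
    · set J := (range n).filter (fun i => i ∉ Bd ∧
        I.src.map (val (ZZ i) (S i)) ≠ I.src.map (val (ZZ (i + 1)) (S (i + 1)))) with hJ
      have hJc : J.card ≤ F * (Bd.card + 1) := by
        have hsub : J ⊆ I.src.toFinset.biUnion (fun q => (range n).filter (fun i => i ∉ Bd ∧
            val (ZZ i) (S i) q ≠ val (ZZ (i + 1)) (S (i + 1)) q)) := by
          intro i hi
          rw [hJ, mem_filter] at hi
          rw [mem_biUnion]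
          by_contra hcon
          push Not at hcon
          apply hi.2.2
          apply List.map_inj_left.mpr
          intro q hq
          by_contra hne
          exact hcon q (List.mem_toFinset.mpr hq) (mem_filter.mpr ⟨hi.1, hi.2.1, hne⟩)
        refine (card_le_card hsub).trans (card_biUnion_le.trans ?_)
        refine (sum_le_card_nsmul _ _ (Bd.card + 1) ?_).trans ?_
        · intro q _
          apply jumps (fun m => val (ZZ m) (S m) q) n Bd
          · intro i hi
            rw [mem_filter, mem_range] at hi
            exact ⟨hi.1, hi.2.1⟩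
          · intro i hi hiB h
            exact val_mono (ZZ_mono (Nat.le_succ i)) (hS i hi hiB) q h
          · intro i hi
            rw [mem_filter] at hi
            exact hi.2.2
        · rw [smul_eq_mul]
          apply Nat.mul_le_mul_right
          exact (List.toFinset_card_le _).trans (hF I (List.mem_cons_self) hsp)
      have hmono : ∀ i, i < n → i ∉ Bd ∪ J → ∀ r, S' i r = true → S' (i + 1) r = true := by
        intro i hi hiB r hr
        rw [mem_union, not_or] at hiB
        refine step_mono (ZZ_mono (Nat.le_succ i)) (hS i hi hiB.1) I (fun hs => ?_) r hr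
        apply ev_map _ _ _ _ I hs
        by_contra hcon
        exact hiB.2 (mem_filter.mpr ⟨mem_range.mpr hi, hiB.1, hcon⟩)
      have h1 := ih hF' S' (Bd ∪ J) hmono
      have hsub : Bd ∪ (range n).filter (fun i => ¬ Good n i (S i) (S (i + 1)) (I :: P)) ⊆
          (Bd ∪ J) ∪ (range n).filter (fun i => ¬ Good n i (S' i) (S' (i + 1)) P) := by
        intro i hi
        rw [mem_union] at hi
        rcases hi with hi | hi
        · exact mem_union_left _ (mem_union_left _ hi)
        · rw [mem_filter, good_cons, not_and_or] at hi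
          obtain ⟨hir, hi | hi⟩ := hi
          · by_cases hiB : i ∈ Bd
            · exact mem_union_left _ (mem_union_left _ hiB)
            · apply mem_union_left _ (mem_union_right _ _)
              rw [hJ, mem_filter]
              exact ⟨hir, hiB, fun hcon => hi (fun _ => hcon)⟩
          · exact mem_union_right _ (mem_filter.mpr ⟨hir, hi⟩)
      have h2 := card_le_card hsub
      have h3 : (Bd ∪ J).card ≤ Bd.card + J.card := card_union_le _ _
      have h4 : spec (I :: P) = spec P + 1 := by
        unfold spec
        exact List.countP_cons_of_pos (p := fun I : Instr (Fin n × Fin n) R => I.fn.isSome) hsp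
      rw [h4, pow_succ]
      calc _ ≤ (F + 1) ^ spec P * ((Bd ∪ J).card + 1) := le_trans (Nat.add_le_add_right h2 1) h1
        _ ≤ (F + 1) ^ spec P * ((F + 1) * (Bd.card + 1)) := by
            apply Nat.mul_le_mul_left
            have : (F + 1) * (Bd.card + 1) = F * (Bd.card + 1) + (Bd.card + 1) := by ring
            omega
        _ = (F + 1) ^ spec P * (F + 1) * (Bd.card + 1) := by ring
    · have hmono : ∀ i, i < n → i ∉ Bd → ∀ r, S' i r = true → S' (i + 1) r = true := by
        intro i hi hiB r hr
        exact step_mono (ZZ_mono (Nat.le_succ i)) (hS i hi hiB) I (fun h => absurd h hsp) r hr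
      have h1 := ih hF' S' Bd hmono
      have h4 : spec (I :: P) = spec P := by
        unfold spec
        exact List.countP_cons_of_neg (p := fun I : Instr (Fin n × Fin n) R => I.fn.isSome) hsp
      rw [h4]
      refine le_trans (Nat.add_le_add_right (card_le_card ?_) 1) h1
      apply union_subset_union_right
      intro i hi
      rw [mem_filter] at hi ⊢
      refine ⟨hi.1, fun hcon => hi.2 ?_⟩
      rw [good_cons]
      exact ⟨fun h => absurd h hsp, hcon⟩

open Classical in
/-- The costs of the reduced programs of the good copies. -/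
theorem sum_cost (P : List (Instr (Fin n × Fin n) R)) : ∀ (S : ℕ → Fin R → Bool)
    (Bd : Finset ℕ), (∀ i, i < n → i ∉ Bd → ∀ r, S i r = true → S (i + 1) r = true) →
    (∀ i, i < n → i ∉ Bd → Good n i (S i) (S (i + 1)) P) →
    ∑ i ∈ (univ : Finset (Fin n)).filter (fun i => i.1 ∉ Bd),
      cost (redu i (S i.1) (S (i.1 + 1)) P) ≤ (Bd.card + 1) * cost P := by
  induction P with
  | nil =>
    intro S Bd _ _
    simp [redu, cost]
  | cons I P ih =>
    intro S Bd hS hG
    set S' : ℕ → Fin R → Bool := fun m => step (ZZ m) (S m) I with hS'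
    have hmono : ∀ i, i < n → i ∉ Bd → ∀ r, S' i r = true → S' (i + 1) r = true := by
      intro i hi hiB r hr
      exact step_mono (ZZ_mono (Nat.le_succ i)) (hS i hi hiB) I
        (fun hs => ev_map _ _ _ _ I hs (((good_cons i _ _ I P).mp (hG i hi hiB)).1 hs)) r hr
    have h1 := ih S' Bd hmono (fun i hi hiB => ((good_cons i _ _ I P).mp (hG i hi hiB)).2)
    have e : ∀ i : Fin n, cost (redu i (S i.1) (S (i.1 + 1)) (I :: P)) =
        (if I.fn.isSome = false ∧ S' i.1 I.dst ≠ S' (i.1 + 1) I.dst then (I.src.length + 1) else 0) +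
        cost (redu i (S' i.1) (S' (i.1 + 1)) P) := by
      intro i
      rw [redu_cons]
      by_cases hc : I.fn.isSome = false ∧ step (ZZ i.1) (S i.1) I I.dst ≠
          step (ZZ (i.1 + 1)) (S (i.1 + 1)) I I.dst
      · rw [if_pos hc, if_pos hc, cost_cons]
        have : (redI i (S i.1) (S (i.1 + 1)) I).src.length = I.src.length := by
          unfold redI
          simp
        rw [this]
      · rw [if_neg hc, if_neg hc, zero_add]
    simp_rw [e]
    rw [sum_add_distrib]
    have h2 : ∑ i ∈ (univ : Finset (Fin n)).filter (fun i => i.1 ∉ Bd),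
        (if I.fn.isSome = false ∧ S' i.1 I.dst ≠ S' (i.1 + 1) I.dst then (I.src.length + 1) else 0) ≤
        (Bd.card + 1) * (I.src.length + 1) := by
      rw [← sum_filter, sum_const, smul_eq_mul]
      apply Nat.mul_le_mul_right
      set J := (((univ : Finset (Fin n)).filter (fun i => i.1 ∉ Bd)).filter
        (fun i => I.fn.isSome = false ∧ S' i.1 I.dst ≠ S' (i.1 + 1) I.dst)) with hJ
      have hJc : (J.image Fin.val).card = J.card :=
        card_image_of_injective J Fin.val_injective
      rw [← hJc]
      apply jumps (fun m => S' m I.dst) n Bd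
      · intro i hi
        rw [mem_image] at hi
        obtain ⟨a, ha, rfl⟩ := hi
        rw [hJ, mem_filter, mem_filter] at ha
        exact ⟨a.2, ha.1.2⟩
      · intro i hi hiB h
        exact hmono i hi hiB I.dst h
      · intro i hi
        rw [mem_image] at hi
        obtain ⟨a, ha, rfl⟩ := hi
        rw [hJ, mem_filter] at ha
        exact ha.2.2
    rw [cost_cons, mul_add]
    exact add_le_add h2 h1

theorem thr_redu (i : Fin n) (P : List (Instr (Fin n × Fin n) R)) : ∀ (lo hi : Fin R → Bool),
    ∀ J ∈ redu i lo hi P, J.thr ≤ J.src.length + 1 ∧ J.fn = none := by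
  induction P with
  | nil => intro lo hi J hJ; simp [redu] at hJ
  | cons I P ih =>
    intro lo hi J hJ
    rw [redu_cons] at hJ
    split_ifs at hJ
    · rw [List.mem_cons] at hJ
      rcases hJ with rfl | hJ
      · unfold redI
        simp only [List.length_map]
        exact ⟨min_le_right _ _, trivial⟩
      · exact ih _ _ J hJ
    · exact ih _ _ J hJ

end Pool.Agent.Helper54K9.GX
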