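import Pool.Agent.Helper54K9.GX.Cnt

/-!
Straight-line programs with few non-monotone instructions (MP_0f1f76_lc): averaging and the lower bound.
-/

set_option autoImplicit false

namespace Pool.Agent.Helper54K9.GX

open Finset

variable {n R : ℕ}

/-- A program: the instructions, and for every copy `i` and every row `j` the place of the output. -/
structure Prog (n R : ℕ) where
  code : List (Instr (Fin n × Fin n) R)
  out : Fin n → Fin n → Ref (Fin n × Fin n) R

/-- The output `j` of copy `i` for the input `x` (all registers are 0 at the start). -/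
def Prog.eval (P : Prog n R) (x : Fin n × Fin n → Bool) (i j : Fin n) : Bool :=
  val x (run x (fun _ => false) P.code) (P.out i j)

/-- Copy `i` outputs column `k` of `M` if its vector is the unit vector `e_k`, the vectors before
it are all-ones and the vectors after it are zero. -/
def Correct (P : Prog n R) (M : Matrix (Fin n) (Fin n) Bool) (q : Fin n × Fin n) : Prop :=
  ∀ j, P.eval (XV q.1 (unit q.2)) q.1 j = M j q.2

open Classical in
/-- There is a random program with at most `t` special instructions, each with at most `F`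
operands, and of expected cost at most `s` which is correct with probability at least `1/2` on
average over the `n^2` test inputs. -/
def Easy (n R F t : ℕ) (s : ℝ) (M : Matrix (Fin n) (Fin n) Bool) : Prop :=
  ∃ (m : ℕ) (w : Fin m → ℝ) (P : Fin m → Prog n R), (∀ a, 0 ≤ w a) ∧ ∑ a, w a = 1 ∧
    (∀ a, spec (P a).code ≤ t ∧ Narrow F (P a).code) ∧
    1 / 2 * (n : ℝ) ^ 2 ≤ ∑ a, w a * ((univ.filter (Correct (P a) M)).card : ℝ) ∧
    ∑ a, w a * (cost (P a).code : ℝ) ≤ s

theorem exists_nonneg {ι : Type} [Fintype ι] (w y : ι → ℝ) (hw : ∀ a, 0 ≤ w a)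
    (h1 : ∑ a, w a = 1) (h : 0 ≤ ∑ a, w a * y a) : ∃ a, 0 ≤ y a := by
  by_contra hcon
  push Not at hcon
  have h2 : ∀ a ∈ (univ : Finset ι), w a * y a ≤ 0 :=
    fun a _ => mul_nonpos_of_nonneg_of_nonpos (hw a) (hcon a).le
  have h3 : ∑ a, w a * y a = 0 := le_antisymm (sum_nonpos h2) h
  rw [sum_eq_zero_iff_of_nonpos h2] at h3
  have h4 : ∀ a, w a = 0 := by
    intro a
    have := h3 a (mem_univ a)
    rcases mul_eq_zero.mp this with h5 | h5
    · exact h5
    · exact absurd h5 (hcon a).ne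
  simp [h4] at h1

open Classical in
theorem extract {s : ℝ} {F t : ℕ} (hn : 0 < n) (ht : 6 * (F + 1) ^ t ≤ n) (hs : 0 < s)
    {M : Matrix (Fin n) (Fin n) Bool} (h : Easy n R F t s M) :
    ∃ (code : List (Instr (Fin n) R)) (out : Fin n → Ref (Fin n) R)
      (K : Finset (Fin n)), (n : ℝ) / 6 ≤ K.card ∧ (cost code : ℝ) ≤ 5 * (((F : ℝ) + 1) ^ t * s) / n ∧
      (∀ J ∈ code, J.thr ≤ J.src.length + 1 ∧ J.fn = none) ∧ Does code out K M := by
  obtain ⟨m, w, P, hw, hw1, hneg, hcor, hcost⟩ := h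
  have hn0 : (0 : ℝ) < n := by exact_mod_cast hn
  have ht0 : (0 : ℝ) < ((F : ℝ) + 1) ^ t := by positivity
  set S : Fin m → ℕ → Fin R → Bool := fun _ _ _ => false with hS
  set Bd : Fin m → Finset ℕ := fun a => (range n).filter
    (fun i => ¬ Good n i (fun _ : Fin R => false) (fun _ => false) (P a).code) with hBd
  set Gd : Fin m → Finset (Fin n) := fun a => univ.filter (fun i => i.1 ∉ Bd a) with hGd
  set KK : Fin m → Fin n → Finset (Fin n) := fun a i =>
    univ.filter (fun k => Correct (P a) M (i, k)) with hKK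
  set cc : Fin m → Fin n → List (Instr (Fin n) R) := fun a i =>
    redu i (fun _ => false) (fun _ => false) (P a).code with hcc
  have hKn : ∀ a i, ((KK a i).card : ℝ) ≤ n := by
    intro a i
    have := card_le_univ (KK a i)
    rw [Fintype.card_fin] at this
    exact_mod_cast this
  -- few bad copies
  have hbad : ∀ a, (Bd a).card + 1 ≤ (F + 1) ^ t := by
    intro a
    have h1 := bad_count F (P a).code (hneg a).2 (fun _ _ => false) ∅ (fun _ _ _ _ h => absurd h (by simp))
    rw [empty_union, card_empty, zero_add, mul_one] at h1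
    exact h1.trans (Nat.pow_le_pow_right (by omega) (hneg a).1)
  have hgood : ∀ a i, i < n → i ∉ Bd a →
      Good n i (fun _ : Fin R => false) (fun _ => false) (P a).code := by
    intro a i hi hiB
    by_contra hcon
    exact hiB (mem_filter.mpr ⟨mem_range.mpr hi, hcon⟩)
  have hbadF : ∀ a, (((univ : Finset (Fin n)) \ Gd a).card : ℝ) ≤ n / 6 := by
    intro a
    have h1 : ((univ : Finset (Fin n)) \ Gd a).card ≤ (Bd a).card := by
      rw [← card_image_of_injective _ Fin.val_injective]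
      apply card_le_card
      intro i hi
      rw [mem_image] at hi
      obtain ⟨b, hb, rfl⟩ := hi
      rw [mem_sdiff, hGd, mem_filter] at hb
      by_contra hcon
      exact hb.2 ⟨mem_univ _, hcon⟩
    have h2 := hbad a
    have h3 : 6 * (((univ : Finset (Fin n)) \ Gd a).card + 1) ≤ n := by omega
    have h4 : (6 : ℝ) * ((((univ : Finset (Fin n)) \ Gd a).card : ℝ) + 1) ≤ n := by
      exact_mod_cast h3
    linarith
  -- the number of good pairs
  have hpairs : ∀ a, ((univ.filter (Correct (P a) M)).card : ℝ) - (n : ℝ) ^ 2 / 6 ≤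
      ∑ i ∈ Gd a, ((KK a i).card : ℝ) := by
    intro a
    have h2 : (univ.filter (Correct (P a) M)).card = ∑ i, (KK a i).card := by
      rw [card_filter, Fintype.sum_prod_type]
      apply sum_congr rfl
      intro i _
      rw [hKK]
      simp only
      rw [card_filter]
    have h3 : ∑ i, ((KK a i).card : ℝ) = ∑ i ∈ univ \ Gd a, ((KK a i).card : ℝ) +
        ∑ i ∈ Gd a, ((KK a i).card : ℝ) := (sum_sdiff (subset_univ (Gd a))).symm
    have h4 : ∑ i ∈ univ \ Gd a, ((KK a i).card : ℝ) ≤ n / 6 * n := by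
      calc ∑ i ∈ univ \ Gd a, ((KK a i).card : ℝ) ≤ ∑ _i ∈ univ \ Gd a, (n : ℝ) :=
            sum_le_sum (fun i _ => hKn a i)
        _ = ((univ : Finset (Fin n)) \ Gd a).card * n := by rw [sum_const, nsmul_eq_mul]
        _ ≤ n / 6 * n := mul_le_mul_of_nonneg_right (hbadF a) hn0.le
    rw [h2]
    push_cast
    rw [h3]
    nlinarith
  have hsumK : (n : ℝ) ^ 2 / 3 ≤ ∑ a, w a * ∑ i ∈ Gd a, ((KK a i).card : ℝ) := by
    have h1 : ∑ a, w a * (((univ.filter (Correct (P a) M)).card : ℝ) - (n : ℝ) ^ 2 / 6) ≤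
        ∑ a, w a * ∑ i ∈ Gd a, ((KK a i).card : ℝ) :=
      sum_le_sum (fun a _ => mul_le_mul_of_nonneg_left (hpairs a) (hw a))
    have h2 : ∑ a, w a * (((univ.filter (Correct (P a) M)).card : ℝ) - (n : ℝ) ^ 2 / 6) =
      (∑ a, w a * ((univ.filter (Correct (P a) M)).card : ℝ)) - (n : ℝ) ^ 2 / 6 := by
      simp only [mul_sub, sum_sub_distrib]
      rw [← sum_mul, hw1, one_mul]
    linarith
  have hsumc : ∑ a, w a * ∑ i ∈ Gd a, (cost (cc a i) : ℝ) ≤ ((F : ℝ) + 1) ^ t * s := by
    have h1 : ∀ a, ∑ i ∈ Gd a, (cost (cc a i) : ℝ) ≤ ((F : ℝ) + 1) ^ t * cost (P a).code := by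
      intro a
      have h2 := sum_cost (P a).code (fun _ _ => false) (Bd a)
        (fun _ _ _ _ h => absurd h (by simp)) (fun i hi hiB => hgood a i hi hiB)
      have h3 := h2.trans (Nat.mul_le_mul_right _ (hbad a))
      exact_mod_cast h3
    calc ∑ a, w a * ∑ i ∈ Gd a, (cost (cc a i) : ℝ) ≤
        ∑ a, w a * (((F : ℝ) + 1) ^ t * cost (P a).code) :=
          sum_le_sum (fun a _ => mul_le_mul_of_nonneg_left (h1 a) (hw a))
      _ = ((F : ℝ) + 1) ^ t * ∑ a, w a * (cost (P a).code : ℝ) := by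
          rw [mul_sum]
          apply sum_congr rfl
          intro a _
          ring
      _ ≤ ((F : ℝ) + 1) ^ t * s := mul_le_mul_of_nonneg_left hcost ht0.le
  -- averaging
  set s' : ℝ := ((F : ℝ) + 1) ^ t * s with hs'
  have hs'0 : 0 < s' := by positivity
  set lam : ℝ := (n : ℝ) ^ 2 / (6 * s') with hlam
  have hlam0 : 0 < lam := by positivity
  have hall : 0 ≤ ∑ a, w a * ∑ i ∈ Gd a, (((KK a i).card : ℝ) - n / 6 - lam * cost (cc a i)) := by
    have h1 : ∀ a, ∑ i ∈ Gd a, ((KK a i).card : ℝ) - (n : ℝ) ^ 2 / 6 -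
        lam * ∑ i ∈ Gd a, (cost (cc a i) : ℝ) ≤
        ∑ i ∈ Gd a, (((KK a i).card : ℝ) - n / 6 - lam * cost (cc a i)) := by
      intro a
      rw [sum_sub_distrib, sum_sub_distrib, ← mul_sum, sum_const, nsmul_eq_mul]
      have h2 : ((Gd a).card : ℝ) ≤ n := by
        have := card_le_univ (Gd a)
        rw [Fintype.card_fin] at this
        exact_mod_cast this
      have h3 : ((Gd a).card : ℝ) * (n / 6) ≤ n * (n / 6) :=
        mul_le_mul_of_nonneg_right h2 (by positivity)
      have h4 : (n : ℝ) * (n / 6) = (n : ℝ) ^ 2 / 6 := by ring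
      linarith
    have h2 : ∑ a, w a * (∑ i ∈ Gd a, ((KK a i).card : ℝ) - (n : ℝ) ^ 2 / 6 -
        lam * ∑ i ∈ Gd a, (cost (cc a i) : ℝ)) =
        ∑ a, w a * ∑ i ∈ Gd a, ((KK a i).card : ℝ) - (n : ℝ) ^ 2 / 6 -
        lam * ∑ a, w a * ∑ i ∈ Gd a, (cost (cc a i) : ℝ) := by
      simp only [mul_sub, sum_sub_distrib]
      rw [← sum_mul, hw1, one_mul, mul_sum]
      congr 1
      apply sum_congr rfl
      intro a _
      ring
    have h5 := sum_le_sum (fun a (_ : a ∈ (univ : Finset (Fin m))) =>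
      mul_le_mul_of_nonneg_left (h1 a) (hw a))
    rw [h2] at h5
    refine le_trans ?_ h5
    have h3 : lam * ∑ a, w a * ∑ i ∈ Gd a, (cost (cc a i) : ℝ) ≤ lam * s' :=
      mul_le_mul_of_nonneg_left hsumc hlam0.le
    have h4 : lam * s' = (n : ℝ) ^ 2 / 6 := by
      rw [hlam]
      field_simp
    linarith
  obtain ⟨a, ha⟩ := exists_nonneg w _ hw hw1 hall
  have hne : (Gd a).Nonempty := by
    rw [nonempty_iff_ne_empty]
    intro he
    have h1 := hbadF a
    rw [he, sdiff_empty, card_univ, Fintype.card_fin] at h1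
    linarith
  obtain ⟨i, hiG, hi⟩ := exists_le_of_sum_le (f := fun _ : Fin n => (0 : ℝ))
    (g := fun i => ((KK a i).card : ℝ) - n / 6 - lam * cost (cc a i)) hne (by
      rw [sum_const_zero]
      exact ha)
  have hc0 : (0 : ℝ) ≤ cost (cc a i) := Nat.cast_nonneg _
  have hKni := hKn a i
  refine ⟨cc a i, fun j => redRef i (run (ZZ i.1) (fun _ => false) (P a).code)
    (run (ZZ (i.1 + 1)) (fun _ => false) (P a).code) ((P a).out i j), KK a i, ?_, ?_, ?_, ?_⟩
  · have := mul_nonneg hlam0.le hc0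
    linarith
  · have h1 : lam * cost (cc a i) ≤ 5 * n / 6 := by linarith
    rw [hlam] at h1
    rw [le_div_iff₀ hn0]
    have h2 : (n : ℝ) ^ 2 / (6 * s') * cost (cc a i) = (n * (n * cost (cc a i))) / (6 * s') := by
      ring
    rw [h2, div_le_iff₀ (by positivity)] at h1
    have h3 : (n : ℝ) * (n * cost (cc a i)) ≤ n * (5 * s') := by
      calc (n : ℝ) * (n * cost (cc a i)) ≤ 5 * n / 6 * (6 * s') := h1
        _ = n * (5 * s') := by ring
    have h4 := le_of_mul_le_mul_left h3 hn0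
    linarith
  · exact thr_redu i (P a).code _ _
  · intro k hk j
    rw [hKK, mem_filter] at hk
    obtain ⟨_, hk1⟩ := hk
    rw [hGd, mem_filter] at hiG
    have hinv0 : Inv (fun _ : Fin R => false) (fun _ => false) (fun _ => false)
        (fun _ => false) := ⟨fun _ h => h, fun _ h => h, fun _ _ => rfl⟩
    have hinv := exact_run (i := i) (v := unit k) (P a).code hinv0 (hgood a i.1 i.2 hiG.2)
    have g1 := hk1 j
    unfold Prog.eval at g1
    simp only at g1
    rw [← g1]
    exact hinv.ref ((P a).out i j)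

open Classical in
/-- The lower bound, with explicit constants. -/
theorem lower (n R L F t : ℕ) (hL : 1 ≤ L) (hn : 100 * L ≤ n) (hR : n + R ≤ 2 ^ L)
    (ht : 6 * (F + 1) ^ t ≤ n) :
    (((univ : Finset (Matrix (Fin n) (Fin n) Bool)).filter
      (Easy n R F t ((n : ℝ) ^ 3 / (1000 * ((F : ℝ) + 1) ^ t * L)))).card : ℝ) ≤
        (2 : ℝ) ^ (9 / 10 * (n : ℝ) ^ 2) := by
  have hn0 : 0 < n := by omega
  have hnR : (0 : ℝ) < n := by exact_mod_cast hn0
  have hLR : (0 : ℝ) < L := by exact_mod_cast hL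
  set s : ℝ := (n : ℝ) ^ 3 / (1000 * ((F : ℝ) + 1) ^ t * L) with hs
  have hs0 : 0 < s := by positivity
  set T : ℕ := ⌊5 * (((F : ℝ) + 1) ^ t * s) / n⌋₊ with hT
  set m : ℕ := ⌈(n : ℝ) / 6⌉₊ with hm
  have h := count (R := R) T m ((univ : Finset (Matrix (Fin n) (Fin n) Bool)).filter
      (Easy n R F t s)) (by
    intro M hM
    rw [mem_filter] at hM
    obtain ⟨code, out, K, h1, h2, h3, h4⟩ := extract hn0 ht hs0 hM.2
    exact ⟨code, out, K, Nat.ceil_le.mpr h1, Nat.le_floor h2, h3, h4⟩)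
  -- bounds in powers of two
  have hTs : (T : ℝ) ≤ (n : ℝ) ^ 2 / (200 * L) := by
    refine (Nat.floor_le (by positivity)).trans (le_of_eq ?_)
    rw [hs]
    field_simp
    norm_num
  have hTL : (T : ℝ) * L ≤ (n : ℝ) ^ 2 / 200 := by
    rw [le_div_iff₀ (by positivity)] at hTs
    linarith
  have hLn : (L : ℝ) * 100 ≤ n := by
    have : ((100 * L : ℕ) : ℝ) ≤ n := by exact_mod_cast hn
    push_cast at this
    linarith
  have hn100 : (100 : ℝ) ≤ n := by
    have : (1 : ℝ) ≤ L := by exact_mod_cast hL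
    linarith
  have hTn : T + 3 ≤ n ^ 2 := by
    have h1 : (T : ℝ) ≤ (n : ℝ) ^ 2 / 200 := by
      have : (T : ℝ) ≤ T * L := by
        have h1 : (1 : ℝ) ≤ L := by exact_mod_cast hL
        have h2 : (0 : ℝ) ≤ T := Nat.cast_nonneg T
        nlinarith
      linarith
    have h2 : (T : ℝ) + 3 ≤ (n : ℝ) ^ 2 := by nlinarith
    exact_mod_cast h2
  have hB : 2 + (n + R) ≤ 2 ^ (2 * L) := by
    have h1 : 2 ≤ 2 ^ L := by
      calc 2 = 2 ^ 1 := by norm_num
        _ ≤ 2 ^ L := Nat.pow_le_pow_right (by norm_num) hL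
    rw [two_mul, pow_add]
    nlinarith
  have hA : 1 + (R * (T + 2) + (2 + (n + R))) ≤ 2 ^ (4 * L) := by
    have hn2 : n ≤ 2 ^ L := by omega
    have hR2 : R ≤ 2 ^ L := by omega
    have h16 : 16 ≤ 2 ^ L := by omega
    have h1 : R * (T + 3) ≤ 2 ^ L * (2 ^ L) ^ 2 := by
      apply Nat.mul_le_mul hR2
      exact hTn.trans (Nat.pow_le_pow_left hn2 2)
    have h2 : 2 ^ (4 * L) = 2 ^ L * (2 ^ L * (2 ^ L) ^ 2) := by
      rw [← pow_mul, ← pow_add, ← pow_add]
      congr 1
      ring
    have e : 1 + (R * (T + 2) + (2 + (n + R))) = R * (T + 3) + (n + 3) := by ring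
    rw [e, h2]
    set X := 2 ^ L with hX
    have h3 : n + 3 ≤ X * X ^ 2 := by nlinarith
    nlinarith
  have h2 : ((univ : Finset (Matrix (Fin n) (Fin n) Bool)).filter (Easy n R F t s)).card ≤
      2 ^ (n * (n - m) + (n + (4 * L * T + 2 * L * n))) := by
    refine h.trans ?_
    rw [pow_add, pow_add, pow_add]
    apply Nat.mul_le_mul_left
    apply Nat.mul_le_mul_left
    rw [pow_mul 2 (4 * L) T, pow_mul 2 (2 * L) n]
    exact Nat.mul_le_mul (Nat.pow_le_pow_left hA T) (Nat.pow_le_pow_left hB n)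
  have h3 : (((univ : Finset (Matrix (Fin n) (Fin n) Bool)).filter (Easy n R F t s)).card : ℝ) ≤
      (2 : ℝ) ^ (((n * (n - m) + (n + (4 * L * T + 2 * L * n)) : ℕ)) : ℝ) := by
    rw [Real.rpow_natCast]
    exact_mod_cast h2
  refine h3.trans (Real.rpow_le_rpow_of_exponent_le (by norm_num) ?_)
  have hm1 : (n : ℝ) / 6 ≤ m := Nat.le_ceil _
  have hmn : m ≤ n := by
    apply Nat.ceil_le.mpr
    linarith
  push_cast [Nat.cast_sub hmn]
  have g1 : (n : ℝ) * (n - m) ≤ n * (n - n / 6) := by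
    apply mul_le_mul_of_nonneg_left _ hnR.le
    linarith
  have g2 : 4 * (L : ℝ) * T ≤ (n : ℝ) ^ 2 / 50 := by nlinarith
  have g3 : 2 * (L : ℝ) * n ≤ (n : ℝ) ^ 2 / 50 := by nlinarith
  have g4 : (n : ℝ) ≤ (n : ℝ) ^ 2 / 100 := by nlinarith
  nlinarith

end Pool.Agent.Helper54K9.GX
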